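import Mathlib

/-! Bipartite graphs with labelled classes, log-densities, collapses and spectra. -/

namespace Pool.Agent.MP_8fd344_co

open Filter Topology

/-- A finite bipartite graph with labelled vertex classes `V1`, `V2` and edge set `E ⊆ V1 × V2`. -/
structure BG where
  V1 : Type
  V2 : Type
  [f1 : Fintype V1]
  [f2 : Fintype V2]
  [d1 : DecidableEq V1]
  [d2 : DecidableEq V2]
  E : Finset (V1 × V2)

attribute [instance] BG.f1 BG.f2 BG.d1 BG.d2

/-- The pair of maps `(f, g)` is a class-preserving homomorphism `H → G`. -/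
def IsHom (H G : BG) (f : H.V1 → G.V1) (g : H.V2 → G.V2) : Prop :=
  ∀ e ∈ H.E, (f e.1, g e.2) ∈ G.E

/-- The number of homomorphisms `H → G`. -/
noncomputable def homCount (H G : BG) : ℕ :=
  Nat.card {φ : (H.V1 → G.V1) × (H.V2 → G.V2) // IsHom H G φ.1 φ.2}

/-- The bipartite homomorphism density. -/
noncomputable def tB (H G : BG) : ℝ :=
  (homCount H G : ℝ) /
    ((Fintype.card G.V1 : ℝ) ^ Fintype.card H.V1 * (Fintype.card G.V2 : ℝ) ^ Fintype.card H.V2)

/-- The single edge. -/
def K2 : BG where
  V1 := Unit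
  V2 := Unit
  E := Finset.univ

open Classical in
/-- The normalised logarithmic density `h(H, G)`. -/
noncomputable def logDens (H G : BG) : ℝ :=
  if tB K2 G = 1 then (H.E.card : ℝ) else Real.log (tB H G) / Real.log (tB K2 G)

/-- The number of vertices. -/
def numV (H : BG) : ℕ := Fintype.card H.V1 + Fintype.card H.V2

/-- `H'` is a collapse of `H`: some homomorphism `H → H'` is onto on vertices and on edges. -/
def IsCollapse (H H' : BG) : Prop :=
  ∃ (f : H.V1 → H'.V1) (g : H.V2 → H'.V2), IsHom H H' f g ∧ Function.Surjective f ∧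
    Function.Surjective g ∧ ∀ e' ∈ H'.E, ∃ e ∈ H.E, (f e.1, g e.2) = e'

/-- `r(H)`, the minimum over collapses `H'` of `|E(H')| + 2 (|V(H)| - |V(H')|)`. -/
noncomputable def rVal (H : BG) : ℕ :=
  sInf {m : ℕ | ∃ H' : BG, IsCollapse H H' ∧ m = H'.E.card + 2 * (numV H - numV H')}

/-- The sequence has the quasirandom log-limit. -/
def HasQuasirandomLogLimit (G : ℕ → BG) : Prop :=
  ∀ H : BG, H.E.Nonempty → Tendsto (fun n => logDens H (G n)) atTop (𝓝 (rVal H : ℝ))

/-- The adjacency matrix of the underlying simple graph on `V1 ⊕ V2`. -/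
def adjMat (G : BG) : Matrix (G.V1 ⊕ G.V2) (G.V1 ⊕ G.V2) ℝ
  | Sum.inl x, Sum.inr y => if (x, y) ∈ G.E then 1 else 0
  | Sum.inr y, Sum.inl x => if (x, y) ∈ G.E then 1 else 0
  | Sum.inl _, Sum.inl _ => 0
  | Sum.inr _, Sum.inr _ => 0

/-- The spectrum: the multiset of roots of the characteristic polynomial of the (real symmetric)
adjacency matrix. -/
noncomputable def spec (G : BG) : Multiset ℝ := (adjMat G).charpoly.roots

end Pool.Agent.MP_8fd344_co
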